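import Mathlib
import Pool.Agent.MP_492a05_co.Final

open Pool.Agent.MP_492a05_co

/-- Let `P` be a `d`-polytope and `1 ≤ r ≤ d - 2`. Every Eulerian poset `Q` whose elements of
dimension different from `r` (rank different from `r + 1`) are identified, preserving ranks and the
order, with the faces of `P` of dimension different from `r`, is isomorphic to the face lattice
of `P` by an isomorphism extending this identification. -/
theorem Pool.Agent.Results.MP_492a05_co.Determined.result
    {E : Type*} [NormedAddCommGroup E] [NormedSpace ℝ E] [FiniteDimensional ℝ E]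
    (V : Finset E) (P : Set E) (hP : P = convexHull ℝ (V : Set E))
    (d r : ℕ) (hd : Module.finrank ℝ (vectorSpan ℝ P) = d) (hr1 : 1 ≤ r) (hr2 : r + 2 ≤ d)
    (Q : Type*) [Finite Q] [PartialOrder Q] [BoundedOrder Q] [GradeMinOrder ℕ Q]
    (hQ : IsEulerian Q)
    (φ : {x : Q // grade ℕ x ≠ r + 1} ≃o {F : Set E // IsExposed ℝ P F ∧ faceRank F ≠ r + 1})
    (hφ : ∀ x, faceRank (φ x).1 = grade ℕ x.1) :
    ∃ ψ : Q ≃o {F : Set E // IsExposed ℝ P F},
      ∀ (x : Q) (h : grade ℕ x ≠ r + 1), (ψ x).1 = (φ ⟨x, h⟩).1 := by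
  subst hP
  exact determined V d r hd hr1 hr2 Q hQ φ hφ
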